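import Pool.Agent.Lib.MP_ca56d1_nt.CL.Good

/-! The system of values attached to the ray classes of a complex cubic field. -/

namespace Pool.Agent.CL

open NumberField IsDedekindDomain Pool.Agent.Stark Pool.Agent.Stark.AR Pool.Agent.RM StarkStmt
  Pool.Agent.StarkD Pool.Agent.CU
open scoped Classical nonZeroDivisors

variable {K : Type} [Field K] [NumberField K] {ρ : K →+* ℝ} {σ : K →+* ℂ}

omit [NumberField K] in
theorem exists_ext (S : Finset (Pr K)) (N : ℕ) (D : Dv K) : ∃ E : Dv K,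
    (∀ r ∈ S, E r = -((N : ℤ) + 1)) ∧ ∀ r ∉ S, E r = D r :=
  ⟨Finsupp.onFinset (S ∪ D.support) (fun r => if r ∈ S then -((N : ℤ) + 1) else D r)
    fun r hr => by
      by_cases h : r ∈ S
      · exact Finset.mem_union_left _ h
      · rw [if_neg h] at hr
        exact Finset.mem_union_right _ (Finsupp.mem_support_iff.2 hr),
    fun _ hr => if_pos hr, fun _ hr => if_neg hr⟩

theorem lat_eq {S : Finset (Pr K)} {N : ℕ} {D E : Dv K} (h1 : ∀ r ∈ S, E r = -((N : ℤ) + 1))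
    (h2 : ∀ r ∉ S, E r = D r) : lat S N D = fi E := by
  refine Submodule.ext fun y => ⟨fun h => ⟨by simp, fun r _ => ?_⟩, fun h =>
    ⟨fun r hr => ?_, fun r hr => ?_⟩⟩
  · by_cases hr : r ∈ S
    · rw [h1 r hr, neg_neg]
      exact h.1 r hr
    · rw [h2 r hr]
      exact h.2 r hr
  · have := h.2 r (Finset.notMem_empty r)
    rwa [h1 r hr, neg_neg] at this
  · have := h.2 r (Finset.notMem_empty r)
    rwa [h2 r hr] at this

theorem isU_pow {ε : K} (h : IsU ε) (m : ℕ) : IsU (ε ^ m) :=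
  ⟨pow_ne_zero _ h.1, fun q => by
    have := h.2 q
    rw [og] at this
    rw [og, ord_pow, this, mul_zero]⟩

theorem kron (hB : BasSt ρ σ) (hU : PartU ρ σ) (hC : CU.PartC ρ σ) {S : Finset (Pr K)} {N : ℕ}
    (hS : S.Nonempty) {ε : K} (hε : PG ρ S N ε) :
    CD.Kr σ fun c : Cl ρ S N => uD ρ σ ε S N c.out := by
  have hL := LatH.latS (K := K)
  obtain ⟨m, m0, m1⟩ := exists_big hε.one_lt hε.ru.1
  obtain ⟨B, h⟩ := exists_good hB (hB.pow ε (hε.eps hB) m m0) (isU_pow hε.ru.1 m)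
  refine ⟨B + S.sup fun r => Ideal.absNorm r.asIdeal, fun p q hp hq c => ?_⟩
  have hqS : q ∉ S := fun h1 => by
    have h2 := Finset.le_sup (f := fun r : Pr K => Ideal.absNorm r.asIdeal) h1
    have h3 := hq.1
    omega
  obtain ⟨E, e1, e2⟩ := exists_ext S N c.out
  have hx := pt_mem S N c.out
  have l1 := lat_eq e1 e2
  have l2 : lat S N (c.out + pd q) = fi (E + pd q) := lat_eq
    (fun r hr => by
      rw [Finsupp.add_apply, e1 r hr, Finsupp.single_eq_of_ne (ne_of_mem_of_not_mem hr hqS),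
        add_zero])
    fun r hr => by rw [Finsupp.add_apply, Finsupp.add_apply, e2 r hr]
  obtain ⟨ξ, h1, h2⟩ := hC.cong ε m q p (hε.eps hB) hε.ru.1 m0 m1 (h p q (by omega) hq) E _
    (l1 ▸ hL.stab S N _ ε hε.ru _ hx) (by
      obtain ⟨r, hr⟩ := hS
      refine ⟨r, ne_of_mem_of_not_mem hr hqS, fun h3 => ?_⟩
      rw [e1 r hr, neg_neg] at h3
      have h4 := sub_mem h3 (hx.1 r hr)
      rw [sub_sub_cancel] at h4
      exact EigAux.one_notMem (ComplAux.pw_mono (by omega) h4))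
  have hx' := (hL.mono S N c.out (c.out + pd q) fun r _ => by
    rw [Finsupp.add_apply, Finsupp.single_apply]
    split_ifs <;> omega).2 hx
  rw [← l1, ← l2, ← uD_eq hU ε hx, ← uD_eq hU ε hx'] at h2
  have h3 := uD_cls hU (hε.eps hB) hε.ru (D := (c + cls ρ S N (pd q)).out) (D' := c.out + pd q)
    (by rw [map_add, cls_out, cls_out])
  refine ⟨_, mu_mul h3 h1, fun O hO => ?_⟩
  obtain ⟨n, n0, n1⟩ := h3
  have h4 := congrArg O.valuation n1
  rw [map_pow, map_one, pow_eq_one_iff_left n0] at h4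
  have h5 := h2 O hO
  rw [Cg, ← one_mul (O.valuation _), ← h4, ← map_mul, mul_sub,
    div_mul_cancel₀ _ (uD_ne hU (hε.eps hB) hε.ru _), ← mul_assoc] at h5
  exact h5.trans_eq h4

theorem alg (hG : CD.GoodSt (K := K)) (hB : BasSt ρ σ) (hC : CU.PartC ρ σ) {S : Finset (Pr K)}
    {N : ℕ} {ε : K} (hε : PG ρ S N ε) (D : Dv K) : IsAlgebraic ℚ (uD ρ σ ε S N D) := by
  obtain ⟨m, m0, m1⟩ := exists_big hε.one_lt hε.ru.1
  obtain ⟨B, h⟩ := exists_good hB (hB.pow ε (hε.eps hB) m m0) (isU_pow hε.ru.1 m)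
  obtain ⟨p, q, hp, hq⟩ := exists_gd σ hG B
  obtain ⟨E, e1, e2⟩ := exists_ext S N D
  have h1 := LatH.latS.stab S N D ε hε.ru _ (pt_mem S N D)
  rw [uD, lat_eq e1 e2] at *
  exact hC.alg ε m q p (hε.eps hB) hε.ru.1 m0 m1 (h p q hp hq) E _ h1

theorem csys (hK : CC ρ σ) (hG : CD.GoodSt (K := K)) (hB : BasSt ρ σ) (hU : PartU ρ σ)
    (hC : CU.PartC ρ σ) : ∃ u, CD.CSys ρ σ u := by
  choose ε hε using exists_pg hK
  have he := fun S N => (hε S N).eps hB
  have h0 := fun S N => uD_ne hU (he S N) (hε S N).ru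
  refine ⟨fun S N c => uD ρ σ (ε S N) S N c.out, fun S N _ c => ⟨h0 S N _, alg hG hB hC (hε S N) _⟩,
    fun S N _ a c h1 h2 => ?_, fun S N hS c => ?_, fun S N hS => kron hB hU hC hS (hε S N),
    fun S N hS q hq d => ?_⟩
  · have h3 := mu_mul (uD_cls hU (he S N) (hε S N).ru (D := (c + cls ρ S N (dv a)).out)
      (D' := c.out + dv a) (by rw [map_add, cls_out, cls_out]))
      (uD_neg hU (he S N) (hε S N).ru c.out h1 h2)
    rwa [← mul_assoc, div_mul_cancel₀ _ (h0 S N _)] at h3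
  · have h1 := zeta hB hU hS (hε S N) c.out (pt_mem S N _)
    rwa [cls_out] at h1
  · obtain ⟨D, h1, h2⟩ := exists_rep ρ hq N d.out
    have h3 := mu_mul (mu_mul (dist hB hU hS hq (hε S N) (hε _ N) h1)
      (uD_cls hU (he S N) (hε S N).ru h2.symm))
      (uD_cls hU (he S N) (hε S N).ru (D := (d - cls ρ S N (pd q)).out) (D' := D - pd q)
        (by rw [map_sub, ← h2, cls_out, cls_out]))
    rw [← h2, cls_out, div_mul_div_cancel₀ (h0 S N _), mul_div_right_comm, mul_assoc,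
      mul_div_cancel₀ _ (h0 S N _), ← mul_div_right_comm] at h3
    exact h3

end Pool.Agent.CL
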