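import Pool.Agent.Lib.MP_ca56d1_nt.CL.UG

/-! Homothety rules and the distribution relation on ray classes. -/

namespace Pool.Agent.CL

open NumberField IsDedekindDomain Pool.Agent.Stark Pool.Agent.Stark.AR Pool.Agent.RM StarkStmt
  Pool.Agent.StarkD Pool.Agent.CU
open scoped Classical nonZeroDivisors

variable {K : Type} [Field K] [NumberField K] {ρ : K →+* ℝ} {σ : K →+* ℂ}

theorem mu_one : Mu 1 := ⟨1, one_ne_zero, by simp⟩

theorem mu_mul {x y : ℂ} (hx : Mu x) (hy : Mu y) : Mu (x * y) := by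
  obtain ⟨n, hn, h1⟩ := hx
  obtain ⟨m, hm, h2⟩ := hy
  exact ⟨n * m, mul_ne_zero hn hm, by
    rw [mul_pow, pow_mul, h1, one_pow, mul_comm n, pow_mul, h2, one_pow, one_mul]⟩

theorem mu_inv {x : ℂ} (hx : Mu x) : Mu x⁻¹ := by
  obtain ⟨n, hn, h1⟩ := hx
  exact ⟨n, hn, by rw [inv_pow, h1, inv_one]⟩

theorem mu_pow {x : ℂ} (hx : Mu x) (k : ℕ) : Mu (x ^ k) := by
  obtain ⟨n, hn, h1⟩ := hx
  exact ⟨n, hn, by rw [← pow_mul, mul_comm, pow_mul, h1, one_pow]⟩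

theorem mu_ne {x : ℂ} (hx : Mu x) : x ≠ 0 := by
  obtain ⟨n, hn, h1⟩ := hx
  rintro rfl
  simp [hn] at h1

theorem mu_prod {ι : Type} (s : Finset ι) {f : ι → ℂ} (h : ∀ i ∈ s, Mu (f i)) :
    Mu (∏ i ∈ s, f i) :=
  Finset.prod_induction f Mu (fun _ _ => mu_mul) mu_one h

/-- A point of `Lam S N D`. -/
noncomputable def pt (S : Finset (Pr K)) (N : ℕ) (D : Dv K) : K := (LatH.ne S N D).some

theorem pt_mem (S : Finset (Pr K)) (N : ℕ) (D : Dv K) : pt S N D ∈ Lam S N D :=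
  (LatH.ne S N D).some_mem

/-- The value attached to a divisor. -/
noncomputable def uD (ρ : K →+* ℝ) (σ : K →+* ℂ) (ε : K) (S : Finset (Pr K)) (N : ℕ) (D : Dv K) :
    ℂ := uu ρ σ ε (lat S N D) (pt S N D)

theorem sub_mem_lat {S : Finset (Pr K)} {N : ℕ} {D : Dv K} {x y : K} (hx : x ∈ Lam S N D)
    (hy : y ∈ Lam S N D) : x - y ∈ lat S N D := by
  rwa [LatH.latS.coset S N D y hy] at hx

theorem uD_eq (hU : PartU ρ σ) (ε : K) {S : Finset (Pr K)} {N : ℕ} {D : Dv K} {x : K}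
    (hx : x ∈ Lam S N D) : uD ρ σ ε S N D = uu ρ σ ε (lat S N D) x :=
  hU.per _ _ _ _ (sub_mem_lat (pt_mem S N D) hx)

theorem uD_off (hU : PartU ρ σ) (ε : K) {S : Finset (Pr K)} {N : ℕ} {D D' : Dv K}
    (h : ∀ q ∉ S, D q = D' q) : uD ρ σ ε S N D = uD ρ σ ε S N D' := by
  have h1 := LatH.latS.off S N D D' h
  rw [uD_eq hU ε (D := D) (h1.2 ▸ pt_mem S N D'), h1.1, uD]

variable (hU : PartU ρ σ) {S : Finset (Pr K)} {N : ℕ} {ε : K} (hε : CU.Eps ρ σ ε) (hr : RU S N ε)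
include hU hε hr

theorem uD_ne (D : Dv K) : uD ρ σ ε S N D ≠ 0 :=
  hU.ne _ _ _ hε (LatH.latS.elat S N D ε hr.1) (LatH.latS.stab S N D ε hr _ (pt_mem S N D))

theorem hom_ps (D : Dv K) {a : K} (ha : PS S a) (hp : 0 < ρ a) {x : K}
    (hx : x ∈ Lam S N (D + dv a)) :
    Mu (uu ρ σ ε (lat S N D) (a * x) / uD ρ σ ε S N (D + dv a)) := by
  rw [uD_eq hU ε hx]
  exact hU.hom ε _ _ x a hε (LatH.latS.elat S N _ ε hr.1) (LatH.latS.stab S N _ ε hr x hx) hp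
    fun y => (LatH.smul_lat S N D a ha y).symm

theorem uD_pos (D : Dv K) {a : K} (ha : Ray S N a) (hp : 0 < ρ a) :
    Mu (uD ρ σ ε S N D / uD ρ σ ε S N (D + dv a)) := by
  have hx := pt_mem S N (D + dv a)
  have h1 := hom_ps hU hε hr D (PS.of_ray ha) hp hx
  rw [LatH.latS.smul_Lam S N D a ha] at hx
  rwa [← uD_eq hU ε hx] at h1

theorem uD_neg (D : Dv K) {a : K} (ha : Ray S N a) (hp : ρ a < 0) :
    Mu (uD ρ σ ε S N (D + dv a) * uD ρ σ ε S N D) := by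
  have hx := pt_mem S N (D + dv a)
  have e : dv (-a) = dv a := Finsupp.ext fun q => by simp [og]
  have h1 := hom_ps hU hε hr D (a := -a) ⟨neg_ne_zero.2 ha.1, fun q hq => by
    simpa [og] using ha.og_eq hq⟩ (by simpa using hp) (e ▸ hx)
  rw [LatH.latS.smul_Lam S N D a ha] at hx
  have h2 := hU.odd ε _ _ hε (LatH.latS.elat S N D ε hr.1) (LatH.latS.stab S N D ε hr _ hx)
  rw [← uD_eq hU ε hx] at h2
  rw [e, neg_mul] at h1
  have h3 := mu_ne h1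
  have h4 := uD_ne hU hε hr (D + dv a)
  have h5 := (div_ne_zero_iff.1 h3).1
  convert mu_mul h2 (mu_inv h1) using 1
  field_simp

theorem uD_cls {D D' : Dv K} (h : cls ρ S N D = cls ρ S N D') :
    Mu (uD ρ σ ε S N D / uD ρ σ ε S N D') := by
  obtain ⟨a, h1, h2, h3⟩ := cls_eq.1 h
  rw [uD_off hU ε (D := D') (D' := D + dv a) fun q hq => by rw [h3 q hq]; rfl]
  exact uD_pos hU hε hr D h1 h2

end Pool.Agent.CL
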