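import Pool.Agent.Lib.MP_ca56d1_nt.CL.Dist

/-! The distribution relation on ray classes. -/

namespace Pool.Agent.CL

open NumberField IsDedekindDomain Pool.Agent.Stark Pool.Agent.Stark.AR Pool.Agent.RM StarkStmt
  Pool.Agent.StarkD Pool.Agent.CU
open scoped Classical nonZeroDivisors

variable {K : Type} [Field K] [NumberField K] {ρ : K →+* ℝ} {σ : K →+* ℂ}
  {S : Finset (Pr K)} {N : ℕ} {q : Pr K}

theorem cls_erase {D D' : Dv K}
    (h : cls ρ (insert q S) N D = cls ρ (insert q S) N D') :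
    cls ρ S N (D.erase q) = cls ρ S N (D'.erase q) := by
  obtain ⟨a, h1, h2, h3⟩ := cls_eq.1 h
  refine cls_eq.2 ⟨a, h1.mono (Finset.subset_insert _ _) le_rfl, h2, fun v hv => ?_⟩
  by_cases e : v = q
  · rw [e, Finsupp.erase_same, Finsupp.erase_same, h1.og_eq (Finset.mem_insert_self _ _), add_zero]
  · rw [Finsupp.erase_ne e, Finsupp.erase_ne e, h3 v (by simp [e, hv])]

theorem lam_ray {D : Dv K} {x : K} (hS : S.Nonempty) (hx : x ∈ Lam S N D) : Ray S N x :=
  ⟨fun h => LatH.latS.notMem S N D D hS x hx (h ▸ zero_mem _), hx.1⟩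

theorem exists_pos (ρ : K →+* ℝ) (S : Finset (Pr K)) (N : ℕ) (D : Dv K) (x : K) :
    ∃ l ∈ lat S N D, 0 < ρ (x + l) := by
  obtain ⟨n, hn, h⟩ := LatH.full S N D 1
  obtain ⟨m, hm⟩ := exists_nat_gt (-ρ x)
  refine ⟨m • ((n : K) * 1), nsmul_mem h m, ?_⟩
  have h1 : (1 : ℝ) ≤ n := by exact_mod_cast Nat.one_le_iff_ne_zero.2 hn
  have h2 : (0 : ℝ) ≤ m := Nat.cast_nonneg m
  simp only [mul_one, nsmul_eq_mul, map_add, map_mul, map_natCast]
  nlinarith

theorem exists_rep (ρ : K →+* ℝ) (hq : q ∉ S) (N : ℕ) (D : Dv K) :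
    ∃ D₀ : Dv K, D₀ q = 0 ∧ cls ρ S N D = cls ρ S N D₀ := by
  obtain ⟨t, t0, ht⟩ := GenAux.exists_og {q} fun _ => -D q
  have ht' : ord (q.valuation K) t = -D q := ht q (Finset.mem_singleton_self q)
  obtain ⟨y, h1, -⟩ := approx_strong (insert q S)
    (fun v => emb v (if v = q then t else 1)) ((N : ℤ) + 1 + |D q|)
  have h2 : ∀ v ∈ insert q S,
      y - (if v = q then t else 1) ∈ pw (v.valuation K) ((N : ℤ) + 1 + |D q|) := fun v hv => by
    have := h1 v hv
    rwa [← map_sub, ComplAux.emb_mem_pw] at this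
  have h3 : y ≠ 0 ∧ og q y = -D q := by
    have h4 := h2 q (Finset.mem_insert_self _ _)
    rw [if_pos rfl] at h4
    by_cases h5 : y - t = 0
    · rw [sub_eq_zero.1 h5]
      exact ⟨t0, ht'⟩
    · have h6 := (mem_pw_iff.1 h4).resolve_left h5
      have h7 := neg_le_abs (D q)
      have := ord_add_of_lt (w := q.valuation K) t0 h5 (by omega)
      rwa [add_sub_cancel, ht'] at this
  have h4 : Ray S N y := ⟨h3.1, fun v hv => by
    have := h2 v (Finset.mem_insert_of_mem hv)
    rw [if_neg fun e : v = q => hq (e ▸ hv)] at this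
    exact ComplAux.pw_mono (by have := abs_nonneg (D q); omega) this⟩
  obtain ⟨a, ha, hs⟩ := (rayT K).sgn (insert q S) N fun φ => 0 < φ y
  refine ⟨D + dv (y * a), ?_, cls_eq.2 ⟨y * a, h4.mul (ha.mono (Finset.subset_insert _ _) le_rfl),
    ?_, fun _ _ => rfl⟩⟩
  · rw [dv_mul h3.1 ha.1, Finsupp.add_apply, Finsupp.add_apply, dv_apply, dv_apply, h3.2,
      ha.og_eq (Finset.mem_insert_self _ _)]
    ring
  · have h5 : ρ y ≠ 0 := by simpa using h3.1
    have h6 : ρ a ≠ 0 := by simpa using ha.1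
    rw [map_mul]
    rcases lt_or_gt_of_ne h5 with h | h
    · exact mul_pos_of_neg_of_neg h (lt_of_le_of_ne (not_lt.1 fun h7 => h.not_gt ((hs ρ).1 h7)) h6)
    · exact mul_pos h ((hs ρ).2 h)

theorem lam_mul {D : Dv K} {u x : K} (hu : RU S N u) (hx : x ∈ Lam S N D) : u * x ∈ Lam S N D := by
  have := LatH.latS.smul_Lam S N D u hu.2
  rw [show dv u = 0 from Finsupp.ext hu.1.2, add_zero] at this
  rwa [this] at hx

theorem lat_mul {D : Dv K} {u x : K} (hu : IsU u) (hx : x ∈ lat S N D) : u * x ∈ lat S N D :=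
  ((LatH.latS.elat S N D u hu).stab x).2 hx

theorem ru_mono {u : K} (hu : RU (insert q S) N u) : RU S N u :=
  ⟨hu.1, hu.2.mono (Finset.subset_insert _ _) le_rfl⟩

theorem exists_level {ε ε' : K} (hε : PG ρ S N ε) (hε' : PG ρ (insert q S) N ε') :
    ∃ k : ℕ, k ≠ 0 ∧ ε' = ε ^ k := by
  obtain ⟨k, hk⟩ := hε.gen ε' (ru_mono hε'.ru) (zero_lt_one.trans hε'.one_lt)
  have h1 := hε'.one_lt
  rw [hk, map_zpow₀, one_lt_zpow_iff_right₀ hε.one_lt] at h1
  exact ⟨k.toNat, by omega, by rw [hk, ← zpow_natCast, Int.toNat_of_nonneg h1.le]⟩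

/-- The partition of the points prime to `q` into orbits of cosets. -/
theorem part (hS : S.Nonempty) (hq : q ∉ S) {ε : K} {k : ℕ} (hε : PG ρ S N ε) (hk : k ≠ 0)
    (hε' : PG ρ (insert q S) N (ε ^ k)) {D : Dv K} (h0 : D q = 0)
    (a : {c : Cl ρ (insert q S) N // cls ρ S N D = cls ρ S N (c.out.erase q)} → K)
    (a1 : ∀ c, Ray S N (a c)) (a2 : ∀ c, 0 < ρ (a c))
    (a3 : ∀ c, ∀ v ∉ S, c.1.out.erase q v = D v + og v (a c)) (x : _ → K)
    (hx : ∀ c, x c ∈ Lam (insert q S) N (D + dv (a c))) (z : K) :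
    (∀ c (j : ℕ), z - ε ^ j * (a c * x c) ∈ lat (insert q S) N D →
      z ∈ Lam S N D ∧ z ∉ Lam S N (D - pd q)) ∧
    (z ∈ Lam S N D → z ∉ Lam S N (D - pd q) →
      ∃! w : _ × ℕ, w.2 < k ∧ z - ε ^ w.2 * (a w.1 * x w.1) ∈ lat (insert q S) N D) := by
  have hS' : (insert q S).Nonempty := Finset.insert_nonempty _ _
  have hqq := Finset.mem_insert_self q S
  have aq : ∀ c, og q (a c) = 0 := fun c => by
    have := a3 c q hq
    rw [Finsupp.erase_same, h0, zero_add] at this
    exact this.symm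
  have aps : ∀ c, PS (insert q S) (a c) := fun c => ⟨(a1 c).1, fun v hv => by
    rcases Finset.mem_insert.1 hv with rfl | hv
    · exact aq c
    · exact (a1 c).og_eq hv⟩
  have xr : ∀ c, Ray (insert q S) N (x c) := fun c => lam_ray hS' (hx c)
  have ru : ∀ j : ℤ, RU S N (ε ^ j) := CZAux.ru_zpow hε.ru
  have out : ∀ c, cls ρ (insert q S) N (D + dv (a c)) = c.1 := fun c => by
    rw [← cls_out c.1]
    refine cls_eq.2 ⟨1, Ray.one _ _, by simp, fun v hv => ?_⟩
    rw [Finset.mem_insert, not_or] at hv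
    rw [← Finsupp.erase_ne hv.1, a3 c v hv.2, Finsupp.add_apply, dv_apply]
    simp [og]
  have sub : ∀ l ∈ lat (insert q S) N D, l ∈ lat S N (D - pd q) := fun l hl =>
    ⟨fun v hv => hl.1 v (Finset.mem_insert_of_mem hv), fun v hv => by
      by_cases e : v = q
      · subst e
        refine ComplAux.pw_mono ?_ (hl.1 v hqq)
        rw [Finsupp.sub_apply, h0, Finsupp.single_eq_same]
        omega
      · rw [Finsupp.sub_apply, Finsupp.single_eq_of_ne e, sub_zero]
        exact hl.2 v (by simp [e, hv])⟩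
  have mono := LatH.latS.mono S N (D - pd q) D fun v _ => by
    rw [Finsupp.sub_apply, Finsupp.single_apply]
    split_ifs <;> omega
  have yl : ∀ c, a c * x c ∈ Lam S N D := fun c => by
    have h1 : x c ∈ Lam S N (D + dv (a c)) :=
      ⟨fun v hv => (hx c).1 v (Finset.mem_insert_of_mem hv), fun v hv => by
        by_cases e : v = q
        · subst e
          rw [Finsupp.add_apply, h0, dv_apply, aq]
          exact LatH.lam_int (hx c) hqq
        · exact (hx c).2 v (by simp [e, hv])⟩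
    rwa [LatH.latS.smul_Lam S N D _ (a1 c)] at h1
  have yq : ∀ c (j : ℤ), og q (ε ^ j * (a c * x c)) = 0 := fun c j => by
    rw [CZAux.og_ru (ru j) (mul_ne_zero (a1 c).1 (xr c).1), og, ord_mul (a1 c).1 (xr c).1]
    exact (congrArg₂ (· + ·) (aq c) ((xr c).og_eq hqq)).trans (add_zero 0)
  have notq : ∀ w : K, w ∈ Lam S N (D - pd q) → w ∈ pw (q.valuation K) 1 := fun w hw => by
    simpa [h0] using hw.2 q hq
  refine ⟨fun c j h => ⟨?_, fun h1 => ?_⟩, fun hz hz' => ?_⟩
  · have h1 := lam_mul (ru j) (yl c)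
    rw [zpow_natCast] at h1
    rw [LatH.latS.coset S N D _ h1]
    exact mono.1 (sub _ h)
  · have h2 := sub_mem (notq z h1) (by simpa [h0] using (sub _ h).2 q hq :
      z - ε ^ j * (a c * x c) ∈ pw (q.valuation K) 1)
    rw [sub_sub_cancel, mem_pw_iff, ← zpow_natCast] at h2
    rcases h2 with h2 | h2
    · exact mul_ne_zero (ru j).1.1 (mul_ne_zero (a1 c).1 (xr c).1) h2
    · have := yq c j
      rw [og] at this
      omega
  have red : ∀ c (i : ℤ) (y : K), (ε ^ k) ^ i * (ε ^ (0 : ℤ) * y * (a c * x c)) -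
      y * (a c * x c) = y * (a c * (((ε ^ k) ^ i - 1) * x c)) := fun c i y => by
    rw [zpow_zero]
    ring
  refine existsUnique_of_exists_of_unique ?_ ?_
  · obtain ⟨l, hl, hp⟩ := exists_pos ρ (insert q S) N D z
    have h1 : z + l ∈ Lam S N D := by
      rw [LatH.latS.coset S N D z hz]
      change z + l - z ∈ lat S N D
      rw [add_sub_cancel_left]
      exact mono.1 (sub l hl)
    have h2 := lam_ray hS h1
    have h3 : og q (z + l) = 0 := by
      have h4 := (mem_pw_iff.1 (h1.2 q hq)).resolve_left h2.1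
      rw [h0] at h4
      by_contra h5
      refine hz' ⟨hz.1, fun v hv => ?_⟩
      by_cases e : v = q
      · subst e
        have h6 : z + l ∈ pw (v.valuation K) 1 := mem_pw_iff.2 (Or.inr (by rw [og] at h5; omega))
        simpa [h0] using sub_mem h6 (by simpa [h0] using (sub l hl).2 v hq :
          l ∈ pw (v.valuation K) 1)
      · rw [Finsupp.sub_apply, Finsupp.single_eq_of_ne e, sub_zero]
        exact hz.2 v hv
    set z' := z + l with hz1
    let c : {c : Cl ρ (insert q S) N // cls ρ S N D = cls ρ S N (c.out.erase q)} :=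
      ⟨cls ρ (insert q S) N (D + dv z'), by
        rw [cls_erase (cls_out _)]
        refine cls_eq.2 ⟨z', h2, hp, fun v _ => ?_⟩
        by_cases e : v = q
        · rw [e, Finsupp.erase_same, h0, h3, add_zero]
        · rw [Finsupp.erase_ne e]
          rfl⟩
    obtain ⟨b, b1, b2, b3⟩ := cls_eq.1 (out c).symm
    have b1' := b1.mono (Finset.subset_insert q S) le_rfl
    have h4 := (h2.mul b1').div (a1 c)
    obtain ⟨i, hi⟩ := hε.gen (z' * b / a c) ⟨⟨h4.1, fun v => by
      by_cases hv : v ∈ S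
      · exact h4.og_eq hv
      rw [og, ord_div (h2.mul b1').1 (a1 c).1, ord_mul h2.1 b1.1]
      by_cases e : v = q
      · subst e
        have h5 := aq c
        have h6 := b1.og_eq hqq
        rw [og] at h3 h5 h6
        omega
      · have h5 := b3 v (by simp [e, hv])
        simp only [Finsupp.add_apply, dv_apply, og] at h5
        omega⟩, h4⟩ (by rw [map_div₀, map_mul]; exact div_pos (mul_pos hp b2) (a2 c))
    have h5 : b⁻¹ ∈ Lam (insert q S) N (D + dv (a c)) := ⟨b1.inv.2, fun v hv => by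
      have h6 := b3 v hv
      have h7 := (mem_pw_iff.1 (h1.2 v fun h => hv (Finset.mem_insert_of_mem h))).resolve_left h2.1
      refine mem_pw_iff.2 (Or.inr ?_)
      simp only [Finsupp.add_apply, dv_apply, og] at h6 ⊢
      rw [ord_inv]
      omega⟩
    have h6 := lat_mul (ru i).1 ((LatH.smul_lat _ N D _ (aps c) _).1 (sub_mem_lat h5 (hx c)))
    have hk' : (0 : ℤ) < k := by omega
    have h7 := lat_mul (ru (i % k)).1 ((LatH.smul_lat _ N D _ (aps c) _).1
      (LatH.latS.stab _ N _ _ (CZAux.ru_zpow hε'.ru (i / k)) _ (hx c)))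
    refine ⟨(c, (i % k).toNat), ?_, ?_⟩
    · have := Int.emod_lt_of_pos i hk'
      have := Int.emod_nonneg i hk'.ne'
      change (i % k).toNat < k
      omega
    · have h8 : ε ^ i = ε ^ (i % k) * (ε ^ k) ^ (i / k) := by
        rw [← zpow_natCast, ← zpow_mul, ← zpow_add₀ hε.ru.1.1, Int.emod_add_mul_ediv]
      have h9 : z = ε ^ i * (a c * b⁻¹) - l := by
        have := (a1 c).1
        have := b1.1
        rw [← hi, eq_sub_iff_add_eq, ← hz1]
        field_simp
      have h10 := sub_mem (add_mem h6 h7) hl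
      change z - ε ^ (i % k).toNat * (a c * x c) ∈ _
      rw [← zpow_natCast, Int.toNat_of_nonneg (Int.emod_nonneg i hk'.ne'), h9]
      rw [h8] at h10 ⊢
      refine (congrArg (· ∈ lat (insert q S) N D) ?_).mp h10
      ring
  · rintro ⟨c, j⟩ ⟨c', j'⟩ ⟨h1, h2⟩ ⟨h3, h4⟩
    have h5 := sub_mem h4 h2
    rw [sub_sub_sub_cancel_left] at h5
    have e0 := hε.ru.1.1
    have h6 : Ray (insert q S) N (ε ^ ((j : ℤ) - j') * a c / a c') := by
      have h7 : Ray (insert q S) N (ε ^ j * (a c * x c) / (ε ^ j' * (a c' * x c'))) := by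
        have n0 : ε ^ j' * (a c' * x c') ≠ 0 :=
          mul_ne_zero (pow_ne_zero _ e0) (mul_ne_zero (a1 c').1 (xr c').1)
        refine ⟨div_ne_zero (mul_ne_zero (pow_ne_zero _ e0) (mul_ne_zero (a1 c).1 (xr c).1)) n0,
          fun v hv => ?_⟩
        rw [div_sub_one n0]
        refine ComplAux.pw_div n0 ?_
        have h8 := CZAux.og_ru (ru j') (mul_ne_zero (a1 c').1 (xr c').1) v
        have h9 := (aps c').2 v hv
        have h10 := (xr c').og_eq hv
        rw [zpow_natCast, og, og, ord_mul (a1 c').1 (xr c').1] at h8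
        rw [og] at h9 h10
        rw [h8, h9, h10, add_zero, zero_add]
        exact h5.1 v hv
      have h8 := (h7.mul (xr c')).div (xr c)
      refine (congrArg (Ray (insert q S) N) ?_).mp h8
      have := (a1 c').1
      have := (xr c).1
      have := (xr c').1
      rw [zpow_sub₀ e0, zpow_natCast, zpow_natCast]
      field_simp
    have h7 : 0 < ρ (ε ^ ((j : ℤ) - j') * a c / a c') := by
      rw [map_div₀, map_mul, map_zpow₀]
      exact div_pos (mul_pos (zpow_pos (zero_lt_one.trans hε.one_lt) _) (a2 c)) (a2 c')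
    have h8 : c' = c := Subtype.ext (by
      rw [← out c, ← out c']
      refine cls_eq.2 ⟨_, h6, h7, fun v _ => ?_⟩
      have h9 := CZAux.og_ru (ru ((j : ℤ) - j')) (a1 c).1 v
      simp only [Finsupp.add_apply, dv_apply, og] at h9 ⊢
      rw [ord_div (mul_ne_zero (ru _).1.1 (a1 c).1) (a1 c').1, h9]
      ring)
    subst h8
    rw [mul_div_cancel_right₀ _ (a1 c').1] at h6 h7
    obtain ⟨i, hi⟩ := hε'.gen _ ⟨(ru _).1, h6⟩ h7
    rw [← zpow_natCast, ← zpow_mul] at hi
    have h9 := hε.inj hi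
    have h10 : j < k := h1
    have h11 : j' < k := h3
    have h12 : i = 0 := by
      by_contra h13
      rcases lt_or_gt_of_ne h13 with h | h <;> nlinarith
    rw [h12, mul_zero] at h9
    exact Prod.ext rfl (by change j = j'; omega)

theorem dist (hB : BasSt ρ σ) (hU : PartU ρ σ) (hS : S.Nonempty) (hq : q ∉ S) {ε ε' : K}
    (hε : PG ρ S N ε) (hε' : PG ρ (insert q S) N ε') {D : Dv K} (h0 : D q = 0) :
    Mu ((∏ᶠ c ∈ {c : Cl ρ (insert q S) N | cls ρ S N (c.out.erase q) = cls ρ S N D},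
      uD ρ σ ε' (insert q S) N c.out) * uD ρ σ ε S N (D - pd q) / uD ρ σ ε S N D) := by
  obtain ⟨k, hk, rfl⟩ := exists_level hε hε'
  have := GenAux.fin ρ (insert q S) N
  let F := {c : Cl ρ (insert q S) N // cls ρ S N D = cls ρ S N (c.out.erase q)}
  have : Fintype F := Fintype.ofFinite F
  choose a a1 a2 a3 using fun c : F => cls_eq.1 c.2
  have aps : ∀ c, PS (insert q S) (a c) := fun c => ⟨(a1 c).1, fun v hv => by
    rcases Finset.mem_insert.1 hv with rfl | hv
    · have := a3 c v hq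
      rw [Finsupp.erase_same, h0, zero_add] at this
      exact this.symm
    · exact (a1 c).og_eq hv⟩
  let x : F → K := fun c => pt (insert q S) N (D + dv (a c))
  have hx : ∀ c, x c ∈ Lam (insert q S) N (D + dv (a c)) := fun c => pt_mem _ _ _
  have hp := part hS hq hε hk hε' h0 a a1 a2 a3 x hx
  have hL := LatH.latS (K := K)
  have h1 := hU.lin ε (hε.eps hB) (ι := F ⊕ Bool)
    (Sum.elim (fun _ => lat (insert q S) N D) fun b => lat S N (if b then D - pd q else D))
    (Sum.elim (fun c => a c * x c) fun b => pt S N (if b then D - pd q else D))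
    (Sum.elim (fun _ => k) fun _ => 1) (Sum.elim (fun _ => 1) fun b => if b then 1 else -1)
    (by rintro (c | b) <;> exact hL.elat _ _ _ ε hε.ru.1)
    (by rintro (c | b); exacts [hk, one_ne_zero])
    (by
      rintro (c | b)
      · have := (LatH.smul_lat _ N D _ (aps c) _).1 (hL.stab _ N _ _ hε'.ru _ (hx c))
        rwa [mul_left_comm] at this
      · simpa using hL.stab S N _ ε hε.ru _ (pt_mem S N _))
    (by
      rintro (c | b)
      · exact fun h => hL.notMem _ N _ _ (Finset.insert_nonempty q S) _ (hx c)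
          ((LatH.smul_lat _ N D _ (aps c) _).2 h)
      · exact hL.notMem S N _ _ hS _ (pt_mem S N _))
    (fun z => by
      have e : ∀ E, z - pt S N E ∈ lat S N E ↔ z ∈ Lam S N E := fun E => by
        rw [hL.coset S N E _ (pt_mem S N E)]
        rfl
      have mono := (hL.mono S N (D - pd q) D fun v _ => by
        rw [Finsupp.sub_apply, Finsupp.single_apply]
        split_ifs <;> omega).2
      simp only [Fintype.sum_sum_type, Sum.elim_inl, Sum.elim_inr, Fintype.sum_bool,
        Finset.sum_range_one, pow_zero, one_mul, if_true, Bool.false_eq_true, if_false, e]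
      have key : ∀ P : F → ℕ → Prop, (∀ c j, P c j → z ∈ Lam S N D ∧ z ∉ Lam S N (D - pd q)) →
          (z ∈ Lam S N D → z ∉ Lam S N (D - pd q) → ∃! w : F × ℕ, w.2 < k ∧ P w.1 w.2) →
          (∑ c : F, ∑ j ∈ Finset.range k, if P c j then (1 : ℤ) else 0) +
            ((if z ∈ Lam S N (D - pd q) then 1 else 0) + if z ∈ Lam S N D then -1 else 0) = 0 := by
        intro P p1 p2
        rw [← Finset.sum_product' (f := fun c j => if P c j then (1 : ℤ) else 0)]
        by_cases h2 : z ∈ Lam S N D ∧ z ∉ Lam S N (D - pd q)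
        · obtain ⟨w, hw, hw'⟩ := p2 h2.1 h2.2
          rw [Finset.sum_eq_single w (fun w' h3 h4 => if_neg fun h5 => h4 (hw' w'
            ⟨Finset.mem_range.1 (Finset.mem_product.1 h3).2, h5⟩)) fun h3 => absurd
              (Finset.mem_product.2 ⟨Finset.mem_univ _, Finset.mem_range.2 hw.1⟩) h3,
            if_pos hw.2, if_neg h2.2, if_pos h2.1]
          rfl
        · rw [Finset.sum_eq_zero fun (w : F × ℕ) _ => if_neg fun h3 => h2 (p1 w.1 w.2 h3)]
          by_cases h3 : z ∈ Lam S N (D - pd q)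
          · rw [if_pos h3, if_pos (mono h3)]
            rfl
          · rw [if_neg h3, if_neg fun h4 => h2 ⟨h4, h3⟩]
            rfl
      exact key _ (hp z).1 (hp z).2)
  simp only [Fintype.prod_sum_type, Sum.elim_inl, Sum.elim_inr, Fintype.prod_bool, pow_one,
    zpow_one, if_true, Bool.false_eq_true, if_false, zpow_neg] at h1
  have h2 := mu_prod Finset.univ fun c _ => mu_inv (hom_ps hU (hε'.eps hB) hε'.ru D (aps c) (a2 c)
    (hx c))
  have h3 : ∀ c : F, uD ρ σ (ε ^ k) (insert q S) N (D + dv (a c)) =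
      uD ρ σ (ε ^ k) (insert q S) N c.1.out := fun c => uD_off hU _ fun v hv => by
    rw [Finset.mem_insert, not_or] at hv
    exact (a3 c v hv.2).symm.trans (Finsupp.erase_ne hv.1)
  have h4 : ∀ c : F, uu ρ σ (ε ^ k) (lat (insert q S) N D) (a c * x c) ≠ 0 := fun c =>
    (div_ne_zero_iff.1 (mu_ne (hom_ps hU (hε'.eps hB) hε'.ru D (aps c) (a2 c) (hx c)))).1
  have h5 : (∏ᶠ c ∈ {c : Cl ρ (insert q S) N | cls ρ S N (c.out.erase q) = cls ρ S N D},
      uD ρ σ (ε ^ k) (insert q S) N c.out) = ∏ c : F, uD ρ σ (ε ^ k) (insert q S) N c.1.out := by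
    rw [← finprod_eq_prod_of_fintype, finprod_subtype_eq_finprod_cond
      (f := fun c : Cl ρ (insert q S) N => uD ρ σ (ε ^ k) (insert q S) N c.out)]
    refine finprod_congr fun c => ?_
    rw [Set.mem_ofPred_eq, eq_comm (a := cls ρ S N (c.out.erase q))]
  refine (congrArg Mu ?_).mp (mu_mul h1 h2)
  rw [h5, mul_right_comm, ← Finset.prod_mul_distrib, mul_div_assoc, div_eq_mul_inv]
  refine congrArg₂ (· * ·) (Finset.prod_congr rfl fun c _ => ?_) rfl
  rw [h3, inv_div, mul_div_cancel₀ _ (h4 c)]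

end Pool.Agent.CL
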