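import Pool.Agent.Lib.MP_ca56d1_nt.CL.Dist2
import Pool.Agent.Lib.MP_ca56d1_nt.CD.Fld
import Pool.Agent.Lib.MP_ca56d1_nt.D.Eig

/-! Large powers of a unit and good primes. -/

namespace Pool.Agent.CL

open NumberField IsDedekindDomain Pool.Agent.Stark Pool.Agent.Stark.AR Pool.Agent.RM StarkStmt
  Pool.Agent.StarkD Pool.Agent.CU
open scoped Classical nonZeroDivisors

variable {K : Type} [Field K] [NumberField K] {ρ : K →+* ℝ} {σ : K →+* ℂ}

theorem exists_big {ε : K} (h1 : 1 < ρ ε) (hu : IsU ε) : ∃ m : ℕ, m ≠ 0 ∧ Big ρ (ε ^ m) := by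
  obtain ⟨v, rfl⟩ := isU_iff.1 hu
  have : Finite (𝓞 K ⧸ Ideal.span {(4 : 𝓞 K)}) :=
    Ideal.finiteQuotientOfFreeOfNeBot _ (by simp)
  obtain ⟨k, hk, e⟩ := isOfFinOrder_iff_pow_eq_one.1 (isOfFinOrder_of_finite
    (Units.map (Ideal.Quotient.mk (Ideal.span {(4 : 𝓞 K)})).toMonoidHom v))
  obtain ⟨j, hj⟩ := pow_unbounded_of_one_lt 20 h1
  have h0 : j ≠ 0 := by
    rintro rfl
    norm_num at hj
  refine ⟨k * j, mul_ne_zero hk.ne' h0, ?_, ?_⟩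
  · rw [map_pow]
    exact hj.le.trans (pow_le_pow_right₀ h1.le (Nat.le_mul_of_pos_left j hk))
  · have e1 : Ideal.Quotient.mk (Ideal.span {(4 : 𝓞 K)}) ((v : 𝓞 K) ^ (k * j)) =
        Ideal.Quotient.mk _ 1 := by
      have e2 := congrArg Units.val e
      rw [Units.val_pow_eq_pow_val] at e2
      rw [map_pow, pow_mul, map_one]
      exact (congrArg (· ^ j) e2).trans (one_pow j)
    obtain ⟨z, hz⟩ := Ideal.mem_span_singleton.1 (Ideal.Quotient.eq.1 e1)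
    have e2 := congrArg (algebraMap (𝓞 K) K) hz
    rw [map_sub, map_pow, map_one, map_mul, map_ofNat] at e2
    exact ⟨z, e2⟩

theorem int_of_pow (q : Pr K) {p : ℕ} (hp : p.Prime) (hq : (p : 𝓞 K) ∈ q.asIdeal) {x : 𝓞 K}
    (h : x ^ p - x ∈ q.asIdeal) : ∃ n : ℤ, x - n ∈ q.asIdeal := by
  have := Fact.mk hp
  have := q.isMaximal
  let _ := Ideal.Quotient.field q.asIdeal
  have : CharP (𝓞 K ⧸ q.asIdeal) p := (CharP.charP_iff_prime_eq_zero hp).2 (by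
    rw [← map_natCast (Ideal.Quotient.mk q.asIdeal), Ideal.Quotient.eq_zero_iff_mem]
    exact hq)
  obtain ⟨n, hn⟩ := (mem_bot_iff_intCast p _).1 ((Subfield.mem_bot_iff_pow_eq_self _ p
    (x := Ideal.Quotient.mk q.asIdeal x)).2 (by
      rw [← map_pow, Ideal.Quotient.eq]
      exact h))
  exact ⟨n, Ideal.Quotient.eq.1 (by rw [map_intCast, hn])⟩

theorem exists_bd (hB : BasSt ρ σ) {x : K} (hx : ¬ ∃ q : ℚ, x = q) :
    ∃ B : ℕ, ∀ (p : ℕ) (a b : ℤ), p ≠ 0 →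
      (∀ r : Pr K, (x - a) * (x - b) / p ∈ pw (r.valuation K) 0) → p ≤ B := by
  have h1 : x ^ 2 ∉ Submodule.span ℚ {(1 : K), x} := fun h => by
    obtain ⟨a, b, e⟩ := Submodule.mem_span_pair.1 h
    have := (hB.ind x hx a b (-1) (by
      rw [← e, Rat.smul_def, Rat.smul_def]
      push_cast
      ring)).2.2
    norm_num at this
  obtain ⟨w, w1, w2⟩ := Submodule.exists_dual_map_eq_bot_of_notMem h1 inferInstance
  have w3 : ∀ y ∈ ({(1 : K), x} : Set K), w y = 0 := fun y hy =>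
    (Submodule.mem_bot ℚ).1 (w2 ▸ Submodule.mem_map_of_mem (Submodule.subset_span hy))
  obtain ⟨c, c0, c1, -⟩ := hB.prim w (lat ∅ 0 0) (fun e => w1 (by rw [e]; rfl))
    ⟨LatH.fg _ _ _, LatH.full _ _ _⟩
  refine ⟨⌈|c * w (x ^ 2)|⌉₊, fun p a b hp h => ?_⟩
  obtain ⟨n, hn⟩ := c1 _ (EigAux.mem_int.2 h)
  have hp' : (p : K) ≠ 0 := Nat.cast_ne_zero.2 hp
  have hp'' : (p : ℚ) ≠ 0 := Nat.cast_ne_zero.2 hp
  have e : (x - a) * (x - b) / p = (p : ℚ)⁻¹ • (x ^ 2 - ((a + b : ℤ) : ℚ) • x +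
      ((a * b : ℤ) : ℚ) • (1 : K)) := by
    simp only [Rat.smul_def]
    push_cast
    field_simp
    ring
  rw [e, LinearMap.smul_apply, map_smul, map_add, map_sub, map_smul, map_smul, w3 x (by simp),
    w3 1 (by simp), smul_zero, smul_zero, sub_zero, add_zero, smul_eq_mul, smul_eq_mul] at hn
  have e2 : c * w (x ^ 2) = p * n := by
    rw [← hn]
    field_simp
  have h0 : n ≠ 0 := by
    rintro rfl
    exact mul_ne_zero c0.ne' w1 (by simpa using e2)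
  have h2 : (1 : ℚ) ≤ |(n : ℚ)| := by exact_mod_cast Int.one_le_abs h0
  have h3 : (p : ℚ) ≤ |c * w (x ^ 2)| := by
    rw [e2, abs_mul, Nat.abs_cast]
    exact le_mul_of_one_le_right (Nat.cast_nonneg p) h2
  exact_mod_cast h3.trans (Nat.le_ceil _)

theorem exists_good (hB : BasSt ρ σ) {E : K} (hE : CU.Eps ρ σ E) (hu : IsU E) :
    ∃ B : ℕ, ∀ p q, B < p → CD.Gd p q → Good E q p := by
  obtain ⟨B, h⟩ := exists_bd hB (hB.irr _ (hB.pow E hE 2 two_ne_zero))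
  refine ⟨B + 4, fun p q hp ⟨h1, q', h2⟩ =>
    ⟨h2.1, by omega, h1, EigAux.og_q h2, fun r hr h3 h4 => ?_⟩⟩
  have h5 : r = q' := by
    by_contra h5
    have h6 := (ComplAux.int_mem_pw r (p : 𝓞 K) 1).2 (by simpa using h3)
    rw [show ((p : 𝓞 K) : K) = p from map_natCast (algebraMap (𝓞 K) K) p, mem_pw_iff] at h6
    rcases h6 with h6 | h6
    · exact h2.1.ne_zero (Nat.cast_eq_zero.1 h6)
    · have h7 := EigAux.og_r h2 hr h5
      rw [og] at h7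
      omega
  subst h5
  obtain ⟨v, rfl⟩ := isU_iff.1 hu
  have e0 : ∀ s : Pr K, ((v : 𝓞 K) : K) ^ 2 ∈ pw (s.valuation K) 0 := fun s =>
    (ComplAux.int_mem_pw s ((v : 𝓞 K) ^ 2) 0).2 (by simp)
  obtain ⟨a, ha⟩ := EigAux.res_loc h2.1 ((rc_wv q).trans h1)
    ((ComplAux.emb_mem_pw q _ 0).2 (e0 q))
  have ha' : ((v : 𝓞 K) : K) ^ 2 - a ∈ pw (q.valuation K) 1 :=
    (ComplAux.emb_mem_pw q _ 1).1 (by rwa [map_sub, map_intCast])
  obtain ⟨b, hb⟩ := int_of_pow r h2.1 h3 (x := (v : 𝓞 K) ^ 2) (by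
    rw [← pow_one r.asIdeal, ← ComplAux.int_mem_pw]
    have h6 := pw_mul (e0 r) h4
    rw [zero_add, mul_sub, mul_one, pow_mul, ← pow_succ', Nat.sub_add_cancel h2.1.one_le] at h6
    simpa using h6)
  have hb' : ((v : 𝓞 K) : K) ^ 2 - b ∈ pw (r.valuation K) 1 := by
    have h6 := (ComplAux.int_mem_pw r _ 1).2 ((pow_one r.asIdeal).symm ▸ hb)
    rwa [RingOfIntegers.coe_eq_algebraMap, map_sub, map_pow, map_intCast] at h6
  have e1 : ∀ (s : Pr K) (n : ℤ), ((v : 𝓞 K) : K) ^ 2 - n ∈ pw (s.valuation K) 0 := fun s n =>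
    sub_mem (e0 s) (EigAux.int_mem n)
  have h6 := h p a b h2.1.ne_zero (EigAux.div_int h2 (fun s => by
    simpa using pw_mul (e1 s a) (e1 s b)) (by simpa using pw_mul ha' (e1 q b))
    (by simpa using pw_mul (e1 r a) hb'))
  omega

theorem exists_gd (σ : K →+* ℂ) (hG : CD.GoodSt (K := K)) (B : ℕ) :
    ∃ (p : ℕ) (q : Pr K), B < p ∧ CD.Gd p q := by
  obtain ⟨M, _, _, _, -, -, -, h1, -, -⟩ := CD.exists_fld K σ ∅ Set.finite_empty (by simp)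
  obtain ⟨δ, -, ⟨γ, h2⟩, B', h3⟩ := hG M h1
  obtain ⟨p, P, s, h4, h5, h6, h7, h8, h9⟩ := exists_frob (γ.restrictScalars ℚ) (B + B')
  obtain ⟨k, hk⟩ : s ∈ Subgroup.zpowers (γ.restrictScalars ℚ) := h9 ▸ Subgroup.mem_zpowers s
  have h10 : AlgEquiv.restrictScalarsHom ℚ (γ ^ k) = s := (map_zpow _ _ _).trans hk
  subst h10
  have h11 : P ≠ ⊥ := fun e => h5.ne_zero (by simpa [e] using h7)
  refine ⟨p, _, by omega, h3 p (by omega) h5 ⟨P, h6, h11⟩ (γ ^ k) h7 h8 fun e => h2 ?_⟩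
  have h12 : Subgroup.zpowers (γ.restrictScalars ℚ) ≤ MulAction.stabilizer (M ≃ₐ[ℚ] M) δ :=
    h9 ▸ Subgroup.zpowers_le.2 e
  exact h12 (Subgroup.mem_zpowers _)

end Pool.Agent.CL
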