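import Pool.Agent.Lib.MP_ca56d1_nt.CU.StC
import Pool.Agent.Lib.MP_ca56d1_nt.D.UGen
import Pool.Agent.Lib.MP_ca56d1_nt.D.CZ
import Pool.Agent.Lib.MP_ca56d1_nt.D.LatH

/-! Positive ray units and ray class zeta functions of a complex cubic field. -/

namespace Pool.Agent.CL

open NumberField IsDedekindDomain Pool.Agent.Stark Pool.Agent.Stark.AR Pool.Agent.RM StarkStmt
  Pool.Agent.StarkD
open scoped Classical nonZeroDivisors

variable {K : Type} [Field K] [NumberField K] {ρ : K →+* ℝ} {σ : K →+* ℂ}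

/-- `ε` generates the positive units congruent to one modulo `𝔣`. -/
structure PG (ρ : K →+* ℝ) (S : Finset (Pr K)) (N : ℕ) (ε : K) : Prop where
  ru : RU S N ε
  one_lt : 1 < ρ ε
  gen : ∀ u, RU S N u → 0 < ρ u → ∃ k : ℤ, u = ε ^ k

theorem rank_eq (h : CU.CC ρ σ) : Units.rank K = 1 := by
  have h1 := InfinitePlace.card_add_two_mul_card_eq_rank K
  have h2 : 0 < InfinitePlace.nrComplexPlaces K := by
    obtain ⟨x, hx⟩ := h.nonreal
    refine Fintype.card_pos_iff.2 ⟨⟨InfinitePlace.mk σ, ?_⟩⟩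
    rw [← InfinitePlace.not_isReal_iff_isComplex, InfinitePlace.isReal_mk_iff,
      ComplexEmbedding.isReal_iff]
    intro e
    exact hx (Complex.conj_eq_iff_im.1 (RingHom.congr_fun e x))
  rw [h.three] at h1
  rw [Units.rank, InfinitePlace.card_eq_nrRealPlaces_add_nrComplexPlaces]
  omega

theorem fund (h : Units.rank K = 1) (ρ : K →+* ℝ) : ∃ ε : K, IsU ε ∧
    (∀ n : ℕ, n ≠ 0 → ε ^ n ≠ 1) ∧ ∀ u, IsU u → ∃ k : ℤ, |ρ u| = |ρ ε| ^ k := by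
  have : Unique (Fin (Units.rank K)) := h ▸ inferInstance
  refine ⟨(Units.fundSystem K default : 𝓞 K), isU_iff.2 ⟨_, rfl⟩, fun n hn e => ?_, fun u hu => ?_⟩
  · have e1 : Units.fundSystem K default ^ n = 1 :=
      Units.ext (RingOfIntegers.ext (by simpa using e))
    have e2 := (Units.exist_unique_eq_mul_prod K 1).unique (y₁ := (1, fun _ => 0))
      (y₂ := (1, fun _ => n)) (by simp) (by simp [e1])
    have e3 : (0 : ℤ) = n := congrFun (congrArg Prod.snd e2) default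
    omega
  · obtain ⟨v, rfl⟩ := isU_iff.1 hu
    obtain ⟨⟨ζ, e⟩, h1, -⟩ := Units.exist_unique_eq_mul_prod K v
    have h2 := (Units.mem_torsion K).1 ζ.2 (InfinitePlace.mk (Complex.ofRealHom.comp ρ))
    rw [InfinitePlace.apply] at h2
    refine ⟨e default, ?_⟩
    rw [h1, Fintype.prod_unique]
    simp only [Units.val_mul, map_mul, abs_mul, Units.coe_zpow, map_zpow₀, abs_zpow]
    rw [show |ρ ((ζ.1 : 𝓞 K) : K)| = 1 by simpa using h2, one_mul]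

theorem cyc (h : Units.rank K = 1) (ρ : K →+* ℝ) (S : Finset (Pr K)) (N : ℕ) :
    ∃ η, RU S N η ∧ 0 < ρ η ∧ ρ η ≠ 1 ∧ ∀ u, RU S N u → 0 < ρ u → ∃ k : ℤ, u = η ^ k := by
  obtain ⟨ε, h1, h2, h3⟩ := fund h ρ
  have h0 : |ρ ε| ≠ 0 := by simpa using h1.1
  let A : AddSubgroup ℤ :=
    { carrier := {k | ∃ u, RU S N u ∧ ρ u = |ρ ε| ^ k}
      zero_mem' := ⟨1, ⟨isU_iff.2 ⟨1, by simp⟩, Ray.one S N⟩, by simp⟩
      add_mem' := by
        rintro a b ⟨u, hu, e⟩ ⟨v, hv, e'⟩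
        exact ⟨u * v, UGenAux.ru_mul hu hv, by rw [map_mul, e, e', zpow_add₀ h0]⟩
      neg_mem' := by
        rintro a ⟨u, hu, e⟩
        exact ⟨u⁻¹, UGenAux.ru_inv hu, by rw [map_inv₀, e, zpow_neg]⟩ }
  obtain ⟨a, ha⟩ := Int.subgroup_cyclic A
  obtain ⟨η, h4, h5⟩ : a ∈ A := ha ▸ AddSubgroup.subset_closure rfl
  have h6 : ∀ u, RU S N u → 0 < ρ u → ∃ k : ℤ, u = η ^ k := fun u hu hp => by
    obtain ⟨k, hk⟩ := h3 u hu.1
    rw [abs_of_pos hp] at hk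
    have h7 : k ∈ A := ⟨u, hu, hk⟩
    rw [ha, AddSubgroup.mem_closure_singleton] at h7
    obtain ⟨m, rfl⟩ := h7
    refine ⟨m, ρ.injective ?_⟩
    rw [hk, map_zpow₀, h5, ← zpow_mul, smul_eq_mul, mul_comm]
  refine ⟨η, h4, h5 ▸ by positivity, fun e => ?_, h6⟩
  obtain ⟨k, hk, h7⟩ := (rayT K).pow S N ε h1.1 fun q _ => h1.2 q
  obtain ⟨v, hv⟩ := isU_iff.1 h1
  have h8 : RU S N (ε ^ k) := ⟨isU_iff.2 ⟨v ^ k, by simp [hv]⟩, h7⟩
  obtain ⟨m, hm⟩ := h6 _ (UGenAux.ru_mul h8 h8) (by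
    rw [map_mul]
    exact mul_self_pos.2 (by simpa using fun h => absurd h h1.1))
  rw [ρ.injective (e.trans (map_one ρ).symm), one_zpow, ← pow_add] at hm
  exact h2 _ (by omega) hm

theorem exists_pg (h : CU.CC ρ σ) (S : Finset (Pr K)) (N : ℕ) : ∃ ε, PG ρ S N ε := by
  obtain ⟨η, h1, h2, h3, h4⟩ := cyc (rank_eq h) ρ S N
  rcases h3.lt_or_gt with h5 | h5
  · refine ⟨η⁻¹, UGenAux.ru_inv h1, by rw [map_inv₀]; exact (one_lt_inv₀ h2).2 h5, fun u hu hp => ?_⟩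
    obtain ⟨k, rfl⟩ := h4 u hu hp
    exact ⟨-k, by simp⟩
  · exact ⟨η, h1, h5, h4⟩

theorem abs_norm (hB : CU.BasSt ρ σ) (y : K) :
    ((|Algebra.norm ℚ y| : ℚ) : ℝ) = |ρ y| * ‖σ y‖ ^ 2 := by
  rw [Rat.cast_abs, hB.norm, abs_mul, abs_of_nonneg (sq_nonneg ‖σ y‖)]

theorem PG.eps (hB : CU.BasSt ρ σ) {S : Finset (Pr K)} {N : ℕ} {ε : K} (h : PG ρ S N ε) :
    CU.Eps ρ σ ε := by
  refine ⟨h.one_lt, ?_⟩
  obtain ⟨v, hv⟩ := isU_iff.1 h.ru.1
  rw [← abs_of_pos (zero_lt_one.trans h.one_lt), ← abs_norm hB, ← hv]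
  exact_mod_cast Units.norm K v

theorem PG.inj {S : Finset (Pr K)} {N : ℕ} {ε : K} (h : PG ρ S N ε) {k l : ℤ}
    (e : ε ^ k = ε ^ l) : k = l := by
  have h1 := congrArg ρ e
  rw [map_zpow₀, map_zpow₀] at h1
  exact zpow_right_injective₀ (zero_lt_one.trans h.one_lt) h.one_lt.ne' h1

open CZAux in
theorem exists_kappa (S : Finset (Pr K)) (D : Dv K) : ∃ κ : ℝ, 0 < κ ∧
    ∀ (I : Ideal (𝓞 K)) (y : K), PrimeTo S I → PS S y → (∀ q ∉ S, idv I q = D q + og q y) →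
      (Ideal.absNorm I : ℝ) = κ * ((|Algebra.norm ℚ y| : ℚ) : ℝ) := by
  obtain ⟨J, hJ⟩ := ComplAux.cnt_surj (Multiplicative.ofAdd (D.filter (· ∉ S)))
  refine ⟨(FractionalIdeal.absNorm J.1 : ℚ), ?_, fun I y hI hy e => ?_⟩
  · exact_mod_cast (FractionalIdeal.absNorm_nonneg J.1).lt_of_ne fun h0 =>
      J.ne_zero (FractionalIdeal.absNorm_eq_zero_iff.1 h0.symm)
  · have h1 : Units.mk0 (I : FractionalIdeal (𝓞 K)⁰ K) (FractionalIdeal.coeIdeal_ne_zero.2 hI.1) =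
        J * toPrincipalIdeal (𝓞 K) K (Units.mk0 y hy.1) := by
      refine ComplAux.cnt_inj ?_
      rw [cnt_mk hI.1, map_mul, hJ, ComplAux.cnt_prin, ← ofAdd_add]
      refine congrArg _ (Finsupp.ext fun q => ?_)
      rw [Finsupp.add_apply, Finsupp.filter_apply, dv_apply, Units.val_mk0]
      split_ifs with hq
      · rw [(cop_iff hI.1 q).1 (hI.2 q hq), hy.2 q hq, add_zero]
      · exact e q hq
    have h2 := congrArg (fun U : (FractionalIdeal (𝓞 K)⁰ K)ˣ => FractionalIdeal.absNorm U.1) h1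
    simp only [Units.val_mk0, Units.val_mul, map_mul, coe_toPrincipalIdeal,
      FractionalIdeal.coeIdeal_absNorm, FractionalIdeal.absNorm_span_singleton] at h2
    rw [← Rat.cast_mul, ← h2, Rat.cast_natCast]

open CZAux in
theorem exists_fd {S : Finset (Pr K)} {N : ℕ} {η : K} (hη : PG ρ S N η) (D : Dv K) :
    ∃ a : {I : Ideal (𝓞 K) // PrimeTo S I ∧ cls ρ S N (idv I) = cls ρ S N D} → K,
      IsFD η {y | y ∈ Lam S N D ∧ 0 < ρ y} a ∧
      ∀ I, PS S (a I) ∧ ∀ q ∉ S, idv I.1 q = D q + og q (a I) := by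
  choose a a1 a2 a3 using
    fun I : {I : Ideal (𝓞 K) // PrimeTo S I ∧ cls ρ S N (idv I) = cls ρ S N D} =>
      cls_eq.1 I.2.2.symm
  refine ⟨a, ⟨fun I => ⟨⟨(a1 I).2, fun q hq => mem_pw_iff.2 (Or.inr ?_)⟩, a2 I⟩, ?_⟩,
    fun I => ⟨PS.of_ray (a1 I), a3 I⟩⟩
  · have h1 : 0 ≤ idv I.1 q := FractionalIdeal.count_coe_nonneg K q I.1
    have h2 := a3 I q hq
    rw [og] at h2
    omega
  rintro y ⟨hy, hy'⟩
  have y0 : y ≠ 0 := fun e => by simp [e] at hy'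
  have yr : Ray S N y := ⟨y0, hy.1⟩
  obtain ⟨I, I0, hI⟩ := exists_ideal ((D + dv y).filter (· ∉ S)) fun q => by
    rw [Finsupp.filter_apply]
    split_ifs with hq
    · exact le_rfl
    · have := (mem_pw_iff.1 (hy.2 q hq)).resolve_left y0
      rw [Finsupp.add_apply, dv_apply, og]
      omega
  have I1 : ∀ q ∉ S, idv I q = D q + og q y := fun q hq => by
    rw [hI, Finsupp.filter_apply, if_pos hq, Finsupp.add_apply, dv_apply]
  have I2 : PrimeTo S I := ⟨I0, fun q hq => (cop_iff I0 q).2 (by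
    rw [hI, Finsupp.filter_apply, if_neg (not_not.2 hq)])⟩
  have I3 := (cls_eq.2 ⟨y, yr, hy', I1⟩).symm
  have b0 := (a1 ⟨I, I2, I3⟩).1
  have hr := yr.div (a1 ⟨I, I2, I3⟩)
  obtain ⟨k, hk⟩ := hη.gen (y / a ⟨I, I2, I3⟩) ⟨⟨hr.1, fun q => by
    by_cases hq : q ∈ S
    · exact hr.og_eq hq
    · have h1 := a3 ⟨I, I2, I3⟩ q hq
      rw [I1 q hq, add_right_inj, og, og] at h1
      rw [og, ord_div y0 b0, h1, sub_self]⟩, hr⟩ (by rw [map_div₀]; exact div_pos hy' (a2 _))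
  have hy1 : y = η ^ k * a ⟨I, I2, I3⟩ := by rw [← hk, div_mul_cancel₀ _ b0]
  refine ⟨(⟨I, I2, I3⟩, k), hy1, ?_⟩
  rintro ⟨J, l⟩ e
  have hJ : J = ⟨I, I2, I3⟩ := Subtype.ext (idv_inj J.2.1.1 I0 (Finsupp.ext fun q => by
    by_cases hq : q ∈ S
    · rw [(cop_iff J.2.1.1 q).1 (J.2.1.2 q hq), (cop_iff I0 q).1 (I2.2 q hq)]
    · rw [a3 J q hq, I1 q hq, e, og_ru (ru_zpow hη.ru l) (a1 J).1]))
  subst hJ
  exact Prod.ext rfl (hη.inj (mul_right_cancel₀ b0 (e.symm.trans hy1)))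

theorem zeta (hB : CU.BasSt ρ σ) (hU : CU.PartU ρ σ) {S : Finset (Pr K)} {N : ℕ} {ε : K}
    (hS : S.Nonempty) (hε : PG ρ S N ε) (D : Dv K) {x : K} (hx : x ∈ Lam S N D) :
    ∃ Z, IsCont (czeta (cls ρ S N D)) Z ∧ Z 0 = 0 ∧
      deriv Z 0 = ((-Real.log (‖CU.uu ρ σ ε (lat S N D) x‖ ^ 2) : ℝ) : ℂ) := by
  have hL := LatH.latS (K := K)
  obtain ⟨a, a1, a2⟩ := exists_fd hε D
  obtain ⟨κ, k0, k1⟩ := exists_kappa S D
  rw [hL.coset S N D x hx] at a1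
  obtain ⟨Z, z1, z2, z3⟩ := hU.klf ε _ x (hε.eps hB) (hL.elat S N D ε hε.ru.1)
    (hL.stab S N D ε hε.ru x hx) (hL.notMem S N D D hS x hx) a a1
  obtain ⟨W, w1, w2, w3⟩ := CZAux.cont_scale (g := czeta (cls ρ S N D)) k0 one_ne_zero z1 z2
    fun s _ => by
      rw [Nat.cast_one, mul_one, czeta, ← tsum_mul_right]
      refine tsum_congr fun c => ?_
      have h3 := k1 c.1 (a c) c.2.1 (a2 c).1 (a2 c).2
      have h4 := Complex.cpow_ne_zero_iff.2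
        (Or.inl (by exact_mod_cast k0.ne') : (κ : ℂ) ≠ 0 ∨ s = 0)
      rw [← Complex.ofReal_natCast, h3, abs_norm hB, Complex.ofReal_mul κ,
        Complex.mul_cpow_ofReal_nonneg k0.le (by positivity), Complex.cpow_neg (κ : ℂ)]
      field_simp
  exact ⟨W, w1, w2, by rw [w3, z3, Nat.cast_one, div_one]⟩

end Pool.Agent.CL
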